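import Pool.Agent.Y386.IR.Stm

/-!
# The imperfection ratio is invariant under isomorphism
-/

set_option autoImplicit false

namespace Pool.Agent.Y275.IR

open Pool.Agent.H692R2 Finset Pool.Agent.Y386.IR

theorem fracCol_iso {V W : Type} [Fintype V] [Fintype W] {G : SimpleGraph V} {H : SimpleGraph W}
    (e : G ≃g H) {s : ℝ} (h : FracCol H s) : FracCol G s := by
  classical
  obtain ⟨w, h0, h1, h2, h3⟩ := h
  have hmem : ∀ (I : Finset V) (v : V), e v ∈ Equiv.finsetCongr e.toEquiv I ↔ v ∈ I := by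
    intro I v
    rw [Equiv.finsetCongr_apply]
    exact Finset.mem_map' e.toEquiv.toEmbedding
  refine ⟨fun I => w (Equiv.finsetCongr e.toEquiv I), fun I => h0 _, fun I hI => ?_, fun v => ?_,
    ?_⟩
  · have h4 := h1 _ hI
    intro a ha b hb hab hadj
    refine h4 (x := e a) ?_ (y := e b) ?_ (fun h => hab (e.injective h)) (e.map_adj_iff.2 hadj)
    · exact Finset.mem_coe.2 ((hmem I a).2 ha)
    · exact Finset.mem_coe.2 ((hmem I b).2 hb)
  · refine (h2 (e v)).trans (le_of_eq ?_)
    symm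
    refine Finset.sum_equiv (Equiv.finsetCongr e.toEquiv) (fun I => ?_) fun I _ => rfl
    rw [Finset.mem_filter, Finset.mem_filter]
    exact ⟨fun h => ⟨Finset.mem_univ _, (hmem I v).2 h.2⟩,
      fun h => ⟨Finset.mem_univ _, (hmem I v).1 h.2⟩⟩
  · rw [← h3]
    exact Equiv.sum_comp (Equiv.finsetCongr e.toEquiv) w

theorem fracChi_iso {V W : Type} [Fintype V] [Fintype W] {G : SimpleGraph V} {H : SimpleGraph W}
    (e : G ≃g H) : fracChi G = fracChi H := by
  rw [fracChi_eq, fracChi_eq]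
  congr 1
  ext s
  exact ⟨fun h => fracCol_iso e.symm h, fun h => fracCol_iso e h⟩

theorem clique_iso {V W : Type} {G : SimpleGraph V} {H : SimpleGraph W}
    (e : G ≃g H) {n : ℕ} (h : ∃ s, G.IsNClique n s) : ∃ s, H.IsNClique n s := by
  obtain ⟨s, hs⟩ := h
  rw [SimpleGraph.isNClique_iff] at hs
  refine ⟨s.map e.toEquiv.toEmbedding, ?_⟩
  rw [SimpleGraph.isNClique_iff, Finset.card_map]
  refine ⟨?_, hs.2⟩
  intro a ha b hb hab
  obtain ⟨a, ha', rfl⟩ := Finset.mem_map.1 (Finset.mem_coe.1 ha)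
  obtain ⟨b, hb', rfl⟩ := Finset.mem_map.1 (Finset.mem_coe.1 hb)
  exact e.map_adj_iff.2 (hs.1 (Finset.mem_coe.2 ha') (Finset.mem_coe.2 hb')
    fun h => hab (by rw [h]))

theorem cliqueNum_iso {V W : Type} {G : SimpleGraph V} {H : SimpleGraph W}
    (e : G ≃g H) : G.cliqueNum = H.cliqueNum := by
  unfold SimpleGraph.cliqueNum
  congr 1
  ext n
  exact ⟨fun h => clique_iso e h, fun h => clique_iso e.symm h⟩

/-- the replicated graphs of isomorphic graphs -/
def repIso {V W : Type} {G : SimpleGraph V} {H : SimpleGraph W} (e : G ≃g H) (x : W → ℕ) :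
    replicated G (fun v => x (e v)) ≃g replicated H x where
  toEquiv := Equiv.sigmaCongrLeft (β := fun w => Fin (x w)) e.toEquiv
  map_rel_iff' := by
    intro a b
    have h1 : ∀ c : Σ v : V, Fin (x (e v)),
        ((Equiv.sigmaCongrLeft (β := fun w => Fin (x w)) e.toEquiv) c).1 = e c.1 := fun c => rfl
    constructor
    · rintro (⟨h, h'⟩ | h)
      · rw [h1, h1] at h
        exact Or.inl ⟨e.injective h, fun h2 => h' (by rw [h2])⟩
      · rw [h1, h1] at h
        exact Or.inr (e.map_adj_iff.1 h)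
    · rintro (⟨h, h'⟩ | h)
      · refine Or.inl ⟨?_, fun h2 => h' ((Equiv.injective _) h2)⟩
        rw [h1, h1, h]
      · refine Or.inr ?_
        rw [h1, h1]
        exact e.map_adj_iff.2 h

theorem imp_mem {V W : Type} [Fintype V] [Fintype W] {G : SimpleGraph V} {H : SimpleGraph W}
    (e : G ≃g H) {r : ℝ} (h : ∃ x : W → ℕ, x ≠ 0 ∧
      r = fracChi (replicated H x) / (replicated H x).cliqueNum) : ∃ x : V → ℕ, x ≠ 0 ∧
      r = fracChi (replicated G x) / (replicated G x).cliqueNum := by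
  obtain ⟨x, hx, hr⟩ := h
  refine ⟨fun v => x (e v), fun h => hx ?_, ?_⟩
  · funext w
    have := congrFun h (e.symm w)
    simpa using this
  · rw [hr, fracChi_iso (repIso e x), cliqueNum_iso (repIso e x)]

theorem t_ISO : S_ISO := by
  intro V W _ _ G H e
  unfold imp
  congr 1
  ext r
  exact ⟨fun h => imp_mem e.symm h, fun h => imp_mem e h⟩

end Pool.Agent.Y275.IR
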